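import Mathlib
import Pool.Graph.R_seed8.Helper579.SmFamily2

/-!
One-dimensional orthonormal families of piecewise polynomials adapted to the nested grids with
`M`, `2 M`, `4 M`, …, `2 ^ L M` cells.
-/

set_option autoImplicit false
set_option linter.unusedSectionVars false

namespace Pool.Agent.KS6_18.RI

open MeasureTheory Set Finset Polynomial Pool.Agent.Helper579.Smooth
open scoped ENNReal RealInnerProductSpace

attribute [instance] Family.fin Family.dec

/-- A family with levels: level `0` is the grid with `M` cells, level `j` the grid with `2 ^ j M`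
cells. -/
structure LevFam (k M L : ℕ) (cP : ℝ) extends Family k M (2 ^ L) cP where
  /-- the level of a function -/
  lev : ι → ℕ
  lev_bd : ∀ l, lev l ≤ L
  lev_le : ∀ j : ℕ, ∀ x, ∑ l ∈ Finset.univ.filter (fun l => lev l ≤ j), φ l x ^ 2 ≤ M * 2 ^ j * cP
  coarseL : ∀ j : ℕ, ∀ l, j < lev l → ∀ q < M * 2 ^ j, ∀ r : ℝ[X], r.degree < k →
    ∫ x, pw (M * 2 ^ j) q r x * φ l x ∂nu = 0
  rep : ∀ l, ∃ R : Fin (M * 2 ^ L) → ℝ[X], (∀ b, (R b).degree < k) ∧
    ∀ x, φ l x = ∑ b : Fin (M * 2 ^ L), pw (M * 2 ^ L) b (R b) x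

section

variable {k K : ℕ} {p : Fin K → ℝ[X]}

lemma extend {N : ℕ} {I : Type} [Fintype I] [DecidableEq I]
    (v : I → EuclideanSpace ℝ (Fin N × Fin K))
    (hv : ∀ i j, ⟪v i, v j⟫ = if i = j then (1 : ℝ) else 0) :
    ∃ (m : ℕ) (b : OrthonormalBasis (I ⊕ Fin m) ℝ (EuclideanSpace ℝ (Fin N × Fin K))),
      ∀ i, b (Sum.inl i) = v i := by
  classical
  have hvo : Orthonormal ℝ v := orthonormal_iff_ite.mpr hv
  have hle : Fintype.card I ≤ Module.finrank ℝ (EuclideanSpace ℝ (Fin N × Fin K)) :=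
    hvo.linearIndependent.fintype_card_le_finrank
  set m := Module.finrank ℝ (EuclideanSpace ℝ (Fin N × Fin K)) - Fintype.card I with hm
  have hcard : Module.finrank ℝ (EuclideanSpace ℝ (Fin N × Fin K))
      = Fintype.card (I ⊕ Fin m) := by
    rw [Fintype.card_sum, Fintype.card_fin]
    omega
  let w : (I ⊕ Fin m) → EuclideanSpace ℝ (Fin N × Fin K) := Sum.elim v (fun _ => 0)
  have hw : Orthonormal ℝ ((Set.range (Sum.inl : I → I ⊕ Fin m)).domRestrict w) := by
    rw [orthonormal_iff_ite]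
    rintro ⟨a, ha⟩ ⟨a', ha'⟩
    have ha2 := ha
    have ha2' := ha'
    obtain ⟨i, rfl⟩ := ha2
    obtain ⟨j, rfl⟩ := ha2'
    have e1 : ⟪(Set.range (Sum.inl : I → I ⊕ Fin m)).domRestrict w ⟨Sum.inl i, ha⟩,
        (Set.range (Sum.inl : I → I ⊕ Fin m)).domRestrict w ⟨Sum.inl j, ha'⟩⟫ = ⟪v i, v j⟫ := rfl
    rw [e1, hv]
    by_cases h : i = j
    · subst h
      rw [if_pos rfl, if_pos rfl]
    · rw [if_neg h, if_neg]
      intro h2
      exact h (Sum.inl_injective (Subtype.mk.inj h2))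
  obtain ⟨b, hb⟩ := hw.exists_orthonormalBasis_extension_of_card_eq hcard
  exact ⟨m, b, fun j => hb _ ⟨j, rfl⟩⟩

lemma Phi_rep {N : ℕ} (hdeg : ∀ a, (p a).degree < k) (v : EuclideanSpace ℝ (Fin N × Fin K)) :
    ∃ R : Fin N → ℝ[X], (∀ b, (R b).degree < k) ∧ ∀ x, Phi p N v x = ∑ b : Fin N, pw N b (R b) x := by
  refine ⟨fun b => ∑ a, (v (b, a) * Real.sqrt N) • p a, fun b => ?_, fun x => ?_⟩
  · rw [← mem_degreeLT]
    exact Submodule.sum_mem _ fun a _ => Submodule.smul_mem _ _ (mem_degreeLT.mpr (hdeg a))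
  · unfold Phi
    rw [Fintype.sum_prod_type]
    apply Finset.sum_congr rfl
    intro b _
    rw [pw_sum]
    apply Finset.sum_congr rfl
    intro a _
    ring

lemma Phi_bdd {N : ℕ} (v : EuclideanSpace ℝ (Fin N × Fin K)) : ∃ C, ∀ x, |Phi p N v x| ≤ C := by
  choose C hC using fun j : Fin N × Fin K => pw_bound N j.1 (p j.2)
  refine ⟨∑ j, |v j| * (Real.sqrt N * C j), fun x => ?_⟩
  unfold Phi
  refine (Finset.abs_sum_le_sum_abs _ _).trans (Finset.sum_le_sum fun j _ => ?_)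
  rw [abs_mul, abs_mul, abs_of_nonneg (Real.sqrt_nonneg _)]
  gcongr
  exact hC j x

lemma Phi_meas {N : ℕ} (v : EuclideanSpace ℝ (Fin N × Fin K)) : Measurable (Phi p N v) := by
  unfold Phi
  exact Finset.measurable_fun_sum _ fun j _ => ((measurable_pw _ _ _).const_mul _).const_mul _

/-- Parseval for the values at a point -/
lemma basis_sq {N : ℕ} {J : Type} [Fintype J] {cP : ℝ} (hcP0 : 0 ≤ cP)
    (hcP : ∀ y ∈ Set.Icc (0 : ℝ) 1, ∑ a, (p a).eval y ^ 2 ≤ cP)
    (b : OrthonormalBasis J ℝ (EuclideanSpace ℝ (Fin N × Fin K))) (x : ℝ) :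
    ∑ l, Phi p N (b l) x ^ 2 ≤ N * cP := by
  have e1 : ∑ l, Phi p N (b l) x ^ 2 = ‖Psi p N x‖ ^ 2 := by
    rw [← b.sum_sq_norm_inner_right (Psi p N x)]
    apply Finset.sum_congr rfl
    intro l _
    rw [Phi_eq_inner, Real.norm_eq_abs, sq_abs]
  rw [e1, EuclideanSpace.norm_eq, Real.sq_sqrt (Finset.sum_nonneg fun _ _ => by positivity)]
  have h2 := pw_sq_sum (L := N) hcP0 hcP x
  refine le_trans (le_of_eq ?_) h2
  apply Finset.sum_congr rfl
  intro j _
  rw [Real.norm_eq_abs, sq_abs]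
  simp [Psi]

/-- fine localised polynomials are combinations of the basis functions -/
lemma basis_fine {N : ℕ} (hN : 1 ≤ N)
    (hspan : ∀ q : ℝ[X], q.degree < k → ∃ c : Fin K → ℝ, q = ∑ a, c a • p a)
    {J : Type} [Fintype J] (b : OrthonormalBasis J ℝ (EuclideanSpace ℝ (Fin N × Fin K)))
    {b' : ℕ} (hb' : b' < N) {r : ℝ[X]} (hr : r.degree < k) :
    ∃ c : J → ℝ, ∀ x, pw N b' r x = ∑ l, c l * Phi p N (b l) x := by
  obtain ⟨v, hv⟩ := exists_coeff (k := k) hspan hN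
    (fun i : Fin N => if (i : ℕ) = b' then r else 0) (fun i => by
      split_ifs
      · exact hr
      · rw [degree_zero]; exact WithBot.bot_lt_coe k)
  refine ⟨fun l => ⟪b l, v⟫, fun x => ?_⟩
  have e1 : pw N b' r x = Phi p N v x := by
    rw [← hv, Finset.sum_eq_single (⟨b', hb'⟩ : Fin N)]
    · simp
    · intro i _ hi
      have : (i : ℕ) ≠ b' := fun h => hi (Fin.ext h)
      rw [if_neg this]
      unfold pw
      simp
    · intro h; exact absurd (Finset.mem_univ _) h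
  rw [e1, Phi_eq_inner]
  conv_lhs => rw [← b.sum_repr' v]
  rw [sum_inner]
  apply Finset.sum_congr rfl
  intro l _
  rw [real_inner_smul_left, Phi_eq_inner]

end

end Pool.Agent.KS6_18.RI
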