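import Pool.Agent.KS6_18.RI.Fam

/-!
Existence of the families with levels.
-/

set_option autoImplicit false
set_option linter.unusedSectionVars false

namespace Pool.Agent.KS6_18.RI

open MeasureTheory Set Finset Polynomial Pool.Agent.Helper579.Smooth
open scoped ENNReal RealInnerProductSpace

lemma refine' {M B N q : ℕ} (h : N = M * B) (hB : 1 ≤ B) (hq : q < M) (r : ℝ[X]) :
    ∃ R : Fin N → ℝ[X], (∀ b, (R b).degree ≤ r.degree) ∧
      ∀ x, pw M q r x = ∑ b : Fin N, pw N b (R b) x := by
  subst h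
  exact pw_refine hB hq r

lemma pw_sum' {A : Type} [Fintype A] (L b : ℕ) (R : A → ℝ[X]) (x : ℝ) :
    pw L b (∑ a, R a) x = ∑ a, pw L b (R a) x := by
  have := pw_sum L b (fun _ : A => (1 : ℝ)) R x
  simpa using this

lemma rep_refine {k N B N' : ℕ} (h : N' = N * B) (hB : 1 ≤ B) {f : ℝ → ℝ}
    (hf : ∃ R : Fin N → ℝ[X], (∀ b, (R b).degree < k) ∧ ∀ x, f x = ∑ b : Fin N, pw N b (R b) x) :
    ∃ R : Fin N' → ℝ[X], (∀ b, (R b).degree < k) ∧ ∀ x, f x = ∑ b : Fin N', pw N' b (R b) x := by
  obtain ⟨R, hR1, hR2⟩ := hf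
  choose S hS1 hS2 using fun b : Fin N => refine' h hB b.2 (R b)
  refine ⟨fun b' => ∑ b, S b b', fun b' => ?_, fun x => ?_⟩
  · rw [← mem_degreeLT]
    exact Submodule.sum_mem _ fun b _ => mem_degreeLT.mpr ((hS1 b b').trans_lt (hR1 b))
  · rw [hR2]
    simp only [pw_sum', hS2]
    rw [Finset.sum_comm]

/-- builder -/
lemma mkLev {k M L : ℕ} {cP : ℝ} (ι : Type) [Fintype ι] [DecidableEq ι] (φ : ι → ℝ → ℝ)
    (meas : ∀ l, Measurable (φ l)) (bdd : ∀ l, ∃ C, ∀ x, |φ l x| ≤ C)
    (orth : ∀ l l', ∫ x, φ l x * φ l' x ∂nu = if l = l' then 1 else 0)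
    (lev : ι → ℕ) (lev_bd : ∀ l, lev l ≤ L)
    (lev_le : ∀ j : ℕ, ∀ x, ∑ l ∈ Finset.univ.filter (fun l => lev l ≤ j), φ l x ^ 2 ≤ M * 2 ^ j * cP)
    (coarseL : ∀ j : ℕ, ∀ l, j < lev l → ∀ q < M * 2 ^ j, ∀ r : ℝ[X], r.degree < k →
      ∫ x, pw (M * 2 ^ j) q r x * φ l x ∂nu = 0)
    (rep : ∀ l, ∃ R : Fin (M * 2 ^ L) → ℝ[X], (∀ b, (R b).degree < k) ∧
      ∀ x, φ l x = ∑ b : Fin (M * 2 ^ L), pw (M * 2 ^ L) b (R b) x)
    (fine : ∀ b < M * 2 ^ L, ∀ r : ℝ[X], r.degree < k →
      ∃ c : ι → ℝ, ∀ x, pw (M * 2 ^ L) b r x = ∑ l, c l * φ l x) :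
    Nonempty (LevFam k M L cP) := by
  classical
  refine ⟨{
    ι := ι
    fin := inferInstance
    dec := inferInstance
    hi := Finset.univ.filter (fun l => 0 < lev l)
    φ := φ
    meas := meas
    bdd := ?_
    orth := orth
    lo_le := ?_
    all_le := ?_
    coarse := ?_
    fine := fine
    lev := lev
    lev_bd := lev_bd
    lev_le := lev_le
    coarseL := coarseL
    rep := rep }⟩
  · choose C hC using bdd
    refine ⟨∑ l, |C l|, fun l x => (hC l x).trans ?_⟩
    exact (le_abs_self _).trans (Finset.single_le_sum (f := fun l => |C l|)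
      (fun i _ => abs_nonneg _) (Finset.mem_univ l))
  · intro x
    have h1 := lev_le 0 x
    have e1 : (Finset.univ \ Finset.univ.filter (fun l : ι => 0 < lev l))
        = Finset.univ.filter (fun l => lev l ≤ 0) := by
      ext l
      simp
    rw [e1]
    simpa using h1
  · intro x
    have h1 := lev_le L x
    have e1 : Finset.univ.filter (fun l => lev l ≤ L) = (Finset.univ : Finset ι) := by
      ext l
      simp [lev_bd l]
    rw [e1] at h1
    push_cast
    exact h1
  · intro l hl q hq r hr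
    rw [Finset.mem_filter] at hl
    have := coarseL 0 l hl.2 q (by simpa using hq) r hr
    simpa using this

section

variable {k K : ℕ} {p : Fin K → ℝ[X]}

theorem exists_levFam (hdeg : ∀ a, (p a).degree < k)
    (hp : ∀ a b, ∫ x, (p a).eval x * (p b).eval x ∂nu = if a = b then 1 else 0)
    (hspan : ∀ q : ℝ[X], q.degree < k → ∃ c : Fin K → ℝ, q = ∑ a, c a • p a)
    {cP : ℝ} (hcP0 : 0 ≤ cP) (hcP : ∀ y ∈ Set.Icc (0 : ℝ) 1, ∑ a, (p a).eval y ^ 2 ≤ cP)
    {M : ℕ} (hM : 1 ≤ M) (L : ℕ) : Nonempty (LevFam k M L cP) := by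
  classical
  have hMr : (0 : ℝ) < M := by exact_mod_cast hM
  induction L with
  | zero =>
    have hN : 1 ≤ M * 2 ^ 0 := by simpa using hM
    obtain ⟨m, b, -⟩ := extend (N := M * 2 ^ 0) (K := K) (I := Empty) (fun e => e.elim)
      (fun e => e.elim)
    have hbo := orthonormal_iff_ite.mp b.orthonormal
    refine mkLev (Empty ⊕ Fin m) (fun l => Phi p (M * 2 ^ 0) (b l)) (fun l => Phi_meas _)
      (fun l => Phi_bdd _) (fun l l' => ?_) (fun _ => 0) (fun _ => le_rfl) (fun j x => ?_)
      (fun j l h => absurd h (Nat.not_lt_zero _)) (fun l => Phi_rep hdeg _)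
      (fun b' hb' r hr => basis_fine hN hspan b hb' hr)
    · rw [Phi_inner hp hN]
      exact hbo l l'
    · have e1 : Finset.univ.filter (fun l : Empty ⊕ Fin m => (0 : ℕ) ≤ j) = Finset.univ := by
        simp
      rw [e1]
      refine (basis_sq hcP0 hcP b x).trans ?_
      have h2 : (1 : ℝ) ≤ 2 ^ j := one_le_pow₀ (by norm_num)
      push_cast
      rw [mul_one]
      nlinarith [mul_nonneg hMr.le hcP0, mul_nonneg (mul_nonneg hMr.le hcP0) (sub_nonneg.mpr h2)]
  | succ L ih =>
    obtain ⟨F⟩ := ih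
    set N : ℕ := M * 2 ^ L with hNdef
    set N' : ℕ := M * 2 ^ (L + 1) with hN'def
    have hNN : N' = N * 2 := by rw [hN'def, hNdef, pow_succ, mul_assoc]
    have hN1 : 1 ≤ N := Nat.mul_pos hM (by positivity)
    have hN'1 : 1 ≤ N' := by omega
    have hv : ∀ l : F.ι, ∃ v : EuclideanSpace ℝ (Fin N' × Fin K), ∀ x, F.φ l x = Phi p N' v x := by
      intro l
      obtain ⟨R, hR1, hR2⟩ := rep_refine hNN (by norm_num) (F.rep l)
      obtain ⟨v, hv⟩ := exists_coeff (k := k) hspan hN'1 R hR1
      exact ⟨v, fun x => by rw [hR2, hv]⟩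
    choose v hv using hv
    obtain ⟨m, b, hb⟩ := extend v (by
      intro i j
      rw [← Phi_inner hp hN'1]
      simp only [← hv]
      exact F.orth i j)
    have hbo := orthonormal_iff_ite.mp b.orthonormal
    have hφ : ∀ l x, Phi p N' (b (Sum.inl l)) x = F.φ l x := by
      intro l x
      rw [hb, ← hv]
    refine mkLev (F.ι ⊕ Fin m) (fun l => Phi p N' (b l)) (fun l => Phi_meas _)
      (fun l => Phi_bdd _) (fun l l' => ?_) (Sum.elim F.lev (fun _ => L + 1)) ?_ (fun j x => ?_)
      ?_ (fun l => Phi_rep hdeg _)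
      (fun b' hb' r hr => basis_fine hN'1 hspan b hb' hr)
    · rw [Phi_inner hp hN'1]
      exact hbo l l'
    · rintro (l | l)
      · exact (F.lev_bd l).trans (Nat.le_succ _)
      · exact le_rfl
    · by_cases hj : j ≤ L
      · have e1 : ∑ l ∈ Finset.univ.filter (fun l : F.ι ⊕ Fin m =>
            Sum.elim F.lev (fun _ => L + 1) l ≤ j), Phi p N' (b l) x ^ 2
            = ∑ l ∈ Finset.univ.filter (fun l : F.ι => F.lev l ≤ j), F.φ l x ^ 2 := by
          rw [Finset.sum_filter, Fintype.sum_sum_type, Finset.sum_filter]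
          have e2 : ∀ i : Fin m, ¬ (Sum.elim F.lev (fun _ => L + 1) (Sum.inr i : F.ι ⊕ Fin m) ≤ j) := by
            intro i
            simp only [Sum.elim_inr]
            omega
          simp only [Sum.elim_inl, e2, if_false, Finset.sum_const_zero, add_zero, hφ]
        rw [e1]
        exact F.lev_le j x
      · refine le_trans (Finset.sum_le_sum_of_subset_of_nonneg (Finset.filter_subset _ _)
          (fun i _ _ => sq_nonneg _)) ?_
        refine (basis_sq hcP0 hcP b x).trans ?_
        have h2 : (2 : ℝ) ^ (L + 1) ≤ 2 ^ j := pow_le_pow_right₀ (by norm_num) (by omega)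
        rw [hN'def]
        push_cast
        gcongr
    · intro j l hl q hq r hr
      rcases l with l | l
      · simp only [Sum.elim_inl] at hl
        simp only [hφ]
        exact F.coarseL j l hl q hq r hr
      · simp only [Sum.elim_inr] at hl
        have hjL : j ≤ L := by omega
        obtain ⟨R, hR1, hR2⟩ := refine' (M := M * 2 ^ j) (B := 2 ^ (L - j)) (N := N)
          (by rw [hNdef, mul_assoc, ← pow_add]; congr 2; omega) (Nat.one_le_two_pow) hq r
        choose c hc using fun b' : Fin N => F.fine b' b'.2 (R b') ((hR1 b').trans_lt hr)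
        have e1 : ∀ x, pw (M * 2 ^ j) q r x * Phi p N' (b (Sum.inr l)) x
            = ∑ b' : Fin N, ∑ l' : F.ι, c b' l' *
              (Phi p N' (b (Sum.inl l')) x * Phi p N' (b (Sum.inr l)) x) := by
          intro x
          rw [hR2, Finset.sum_mul]
          apply Finset.sum_congr rfl
          intro b' _
          rw [hc, Finset.sum_mul]
          apply Finset.sum_congr rfl
          intro l' _
          rw [hφ]
          ring
        have hint : ∀ l', Integrable (fun x => Phi p N' (b (Sum.inl l')) x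
            * Phi p N' (b (Sum.inr l)) x) nu := by
          intro l'
          obtain ⟨C, hC⟩ := Phi_bdd (p := p) (b (Sum.inl l'))
          obtain ⟨C', hC'⟩ := Phi_bdd (p := p) (b (Sum.inr l))
          refine integrable_of_bounded ((Phi_meas _).mul (Phi_meas _)) (C := C * C') ?_
          intro x
          rw [abs_mul]
          exact mul_le_mul (hC x) (hC' x) (abs_nonneg _) ((abs_nonneg _).trans (hC x))
        simp only [e1]
        rw [integral_finsetSum _ (fun b' _ => integrable_finsetSum _ fun l' _ =>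
          (hint l').const_mul _)]
        apply Finset.sum_eq_zero
        intro b' _
        rw [integral_finsetSum _ (fun l' _ => (hint l').const_mul _)]
        apply Finset.sum_eq_zero
        intro l' _
        rw [integral_const_mul, Phi_inner hp hN'1, hbo, if_neg (by simp), mul_zero]

end

end Pool.Agent.KS6_18.RI
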