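import Pool.Agent.KS6_18.RI.Fam
import Pool.Graph.R_seed8.Helper579.SmTensor

/-!
Tensor products of the functions of a family with levels: kernel bound and approximation.
-/

set_option autoImplicit false
set_option linter.unusedSectionVars false

namespace Pool.Agent.KS6_18.RI

open MeasureTheory Set Finset Polynomial Pool.Agent.Helper579.Smooth
open scoped ENNReal

section Tensor

variable {k M L : ℕ} {cP : ℝ} (F : LevFam k M L cP) {d : ℕ}

/-- total level -/
def levSum (j : Fin d → F.ι) : ℕ := ∑ c, F.lev (j c)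

/-- the index set -/
def low' (d s : ℕ) : Finset (Fin d → F.ι) := Finset.univ.filter fun j => levSum F j ≤ s

lemma one_dim_bound (hcP0 : 0 ≤ cP) (y : ℝ) :
    ∑ l, (1 / 4 : ℝ) ^ F.lev l * F.φ l y ^ 2 ≤ 2 * (M * cP) := by
  have h1 : ∑ l, (1 / 4 : ℝ) ^ F.lev l * F.φ l y ^ 2
      = ∑ j ∈ range (L + 1), ∑ l ∈ Finset.univ.filter (fun l => F.lev l = j),
        (1 / 4 : ℝ) ^ F.lev l * F.φ l y ^ 2 := by
    rw [Finset.sum_fiberwise_of_maps_to]
    intro l _
    rw [Finset.mem_range]
    exact Nat.lt_succ_of_le (F.lev_bd l)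
  have h2 : ∀ j, ∑ l ∈ Finset.univ.filter (fun l => F.lev l = j),
        (1 / 4 : ℝ) ^ F.lev l * F.φ l y ^ 2 ≤ (1 / 2 : ℝ) ^ j * (M * cP) := by
    intro j
    calc ∑ l ∈ Finset.univ.filter (fun l => F.lev l = j), (1 / 4 : ℝ) ^ F.lev l * F.φ l y ^ 2
        = ∑ l ∈ Finset.univ.filter (fun l => F.lev l = j), (1 / 4 : ℝ) ^ j * F.φ l y ^ 2 := by
          apply Finset.sum_congr rfl
          intro l hl
          rw [Finset.mem_filter] at hl
          rw [hl.2]
      _ = (1 / 4 : ℝ) ^ j * ∑ l ∈ Finset.univ.filter (fun l => F.lev l = j), F.φ l y ^ 2 := by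
          rw [Finset.mul_sum]
      _ ≤ (1 / 4 : ℝ) ^ j * ∑ l ∈ Finset.univ.filter (fun l => F.lev l ≤ j), F.φ l y ^ 2 := by
          apply mul_le_mul_of_nonneg_left _ (by positivity)
          apply Finset.sum_le_sum_of_subset_of_nonneg
          · intro l hl
            rw [Finset.mem_filter] at hl ⊢
            exact ⟨hl.1, hl.2.le⟩
          · intro l _ _
            exact sq_nonneg _
      _ ≤ (1 / 4 : ℝ) ^ j * (M * 2 ^ j * cP) := by
          gcongr
          exact F.lev_le j y
      _ = (1 / 2 : ℝ) ^ j * (M * cP) := by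
          rw [show (1 / 2 : ℝ) ^ j = (1 / 4 : ℝ) ^ j * 2 ^ j by rw [← mul_pow]; norm_num]
          ring
  rw [h1]
  calc _ ≤ ∑ j ∈ range (L + 1), (1 / 2 : ℝ) ^ j * (M * cP) := Finset.sum_le_sum fun j _ => h2 j
    _ = (∑ j ∈ range (L + 1), (1 / 2 : ℝ) ^ j) * (M * cP) := by rw [Finset.sum_mul]
    _ ≤ 2 * (M * cP) := by
        apply mul_le_mul_of_nonneg_right _ (by positivity)
        rw [geom_sum_eq (by norm_num)]
        have : (0 : ℝ) ≤ (1 / 2) ^ (L + 1) := by positivity
        rw [div_le_iff_of_neg (by norm_num)]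
        linarith

lemma kernel_bound' (hcP0 : 0 ≤ cP) (s : ℕ) (x : Fin d → ℝ) :
    ∑ j ∈ low' F d s, ten F.toFamily j x ^ 2 ≤ (4 : ℝ) ^ s * (2 * (M * cP)) ^ d := by
  have hprod : ∀ j : Fin d → F.ι, ∏ c, (1 / 4 : ℝ) ^ F.lev (j c) = (1 / 4 : ℝ) ^ levSum F j := by
    intro j
    rw [Finset.prod_pow_eq_pow_sum]
    rfl
  have h1 : ∀ j ∈ low' F d s, ten F.toFamily j x ^ 2
      ≤ (4 : ℝ) ^ s * ∏ c, ((1 / 4 : ℝ) ^ F.lev (j c) * F.φ (j c) (x c) ^ 2) := by
    intro j hj
    simp only [low', Finset.mem_filter, Finset.mem_univ, true_and] at hj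
    rw [Finset.prod_mul_distrib, hprod, Finset.prod_pow]
    have h2 : (1 : ℝ) ≤ (4 : ℝ) ^ s * (1 / 4 : ℝ) ^ levSum F j := by
      rw [one_div, inv_pow, ← div_eq_mul_inv, le_div_iff₀ (by positivity), one_mul]
      exact pow_le_pow_right₀ (by norm_num) hj
    have h3 : 0 ≤ (∏ c, F.φ (j c) (x c)) ^ 2 := sq_nonneg _
    have h4 : ten F.toFamily j x ^ 2 = (∏ c, F.φ (j c) (x c)) ^ 2 := rfl
    rw [h4, ← mul_assoc]
    exact le_mul_of_one_le_left h3 h2
  calc ∑ j ∈ low' F d s, ten F.toFamily j x ^ 2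
      ≤ ∑ j ∈ low' F d s, (4 : ℝ) ^ s * ∏ c, ((1 / 4 : ℝ) ^ F.lev (j c) * F.φ (j c) (x c) ^ 2) :=
        Finset.sum_le_sum h1
    _ ≤ ∑ j : Fin d → F.ι, (4 : ℝ) ^ s * ∏ c, ((1 / 4 : ℝ) ^ F.lev (j c) * F.φ (j c) (x c) ^ 2) := by
        apply Finset.sum_le_sum_of_subset_of_nonneg (Finset.subset_univ _)
        intro j _ _
        exact mul_nonneg (by positivity) (Finset.prod_nonneg fun c _ => by positivity)
    _ = (4 : ℝ) ^ s * ∏ c, ∑ l, ((1 / 4 : ℝ) ^ F.lev l * F.φ l (x c) ^ 2) := by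
        rw [← Finset.mul_sum, Finset.prod_univ_sum, Fintype.piFinset_univ]
    _ ≤ (4 : ℝ) ^ s * ∏ _c : Fin d, (2 * (M * cP)) := by
        gcongr with c _
        exact one_dim_bound F hcP0 _
    _ = _ := by simp

variable (N : Nodes k)

lemma dirI_orth' {g : (Fin d → ℝ) → ℝ} (hg : Measurable g) {C : ℝ} (hC : ∀ x, |g x| ≤ C)
    (i : Fin d) (j : Fin d → F.ι) {t : ℕ} (hj : t < F.lev (j i)) :
    ∫ x, dirI N (M * 2 ^ t) i g x * ten F.toFamily j x ∂(mu d) = 0 := by
  classical
  set M' : ℕ := M * 2 ^ t with hM'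
  have h1 : ∀ x, dirI N M' i g x * ten F.toFamily j x = ∑ q ∈ range M', ∑ m : Fin k,
      (fun s => pw M' q (N.ell m) s * F.φ (j i) s) (x i) *
        (g (Function.update x i ((q + N.τ m) / M')) * ∏ c ∈ Finset.univ.erase i, F.φ (j c) (x c)) := by
    intro x
    unfold dirI ten
    rw [Finset.sum_mul]
    apply Finset.sum_congr rfl
    intro q _
    rw [Finset.sum_mul]
    apply Finset.sum_congr rfl
    intro m _
    rw [← Finset.mul_prod_erase Finset.univ (fun c => F.φ (j c) (x c)) (Finset.mem_univ i)]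
    ring
  obtain ⟨D, hD⟩ := F.bdd
  have hint : ∀ (q : ℕ) (m : Fin k), Integrable (fun x : Fin d → ℝ =>
      (fun s => pw M' q (N.ell m) s * F.φ (j i) s) (x i) *
        (g (Function.update x i ((q + N.τ m) / M')) *
          ∏ c ∈ Finset.univ.erase i, F.φ (j c) (x c))) (mu d) := by
    intro q m
    obtain ⟨P, hP⟩ := pw_bound M' q (N.ell m)
    apply integrable_bdd_mul (C := P * D) (D := C * |D| ^ (Finset.univ.erase i).card)
    · exact ((measurable_pw M' q (N.ell m)).mul (F.meas (j i))).comp (measurable_pi_apply i)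
    · apply Measurable.mul
      · exact hg.comp measurable_update_left
      · exact Finset.measurable_fun_prod _ fun c _ => (F.meas (j c)).comp (measurable_pi_apply c)
    · intro x
      beta_reduce
      rw [abs_mul]
      exact mul_le_mul (hP _) (hD _ _) (abs_nonneg _) ((abs_nonneg _).trans (hP 0))
    · intro x
      rw [abs_mul, Finset.abs_prod]
      apply mul_le_mul (hC _) _ (Finset.prod_nonneg fun _ _ => abs_nonneg _)
        ((abs_nonneg _).trans (hC x))
      calc ∏ c ∈ Finset.univ.erase i, |F.φ (j c) (x c)| ≤ ∏ _c ∈ Finset.univ.erase i, |D| :=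
            Finset.prod_le_prod (fun _ _ => abs_nonneg _)
              (fun c _ => (hD _ _).trans (le_abs_self _))
        _ = _ := by simp
  simp only [h1]
  rw [integral_finsetSum _ (fun q _ => integrable_finsetSum _ (fun m _ => hint q m))]
  apply Finset.sum_eq_zero
  intro q hq
  rw [integral_finsetSum _ (fun m _ => hint q m)]
  apply Finset.sum_eq_zero
  intro m _
  refine int_coord i (u := fun s => pw M' q (N.ell m) s * F.φ (j i) s) ?_
    (F := fun x => g (Function.update x i ((q + N.τ m) / M')) *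
      ∏ c ∈ Finset.univ.erase i, F.φ (j c) (x c)) ?_
  · exact F.coarseL t (j i) hj q (Finset.mem_range.mp hq) (N.ell m) (N.deg m)
  · intro x s
    rw [Function.update_idem]
    congr 1
    apply Finset.prod_congr rfl
    intro c hc
    rw [Function.update_of_ne (Finset.ne_of_mem_erase hc)]

/-- approximation in the span of the functions of small total level -/
theorem approx_low' {f : (Fin d → ℝ) → ℝ} (hf : Measurable f) {C : ℝ} (hC : ∀ x, |f x| ≤ C)
    {δ : ℕ → ℝ} {δ' Δ : ℝ}
    (h1 : ∀ t, ∀ i, ∀ x ∈ openCube d, |dirI N (M * 2 ^ t) i f x - f x| ≤ δ t)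
    (hΔ : ∑ t ∈ range L, δ t ^ 2 ≤ Δ)
    {a : (Fin d → F.ι) → ℝ} (h2 : ∀ x ∈ openCube d, |f x - ∑ j, a j * ten F.toFamily j x| ≤ δ')
    (s : ℕ) :
    ∫ x, f x ^ 2 ∂(mu d) - ∑ j ∈ low' F d s, (∫ x, f x * ten F.toFamily j x ∂(mu d)) ^ 2
      ≤ δ' ^ 2 + d * Δ / (s + 1) := by
  classical
  obtain ⟨D, hD⟩ := ten_bdd F.toFamily d
  have he := measurable_ten F.toFamily (d := d)
  have ho := ten_orth F.toFamily (d := d)
  set c : (Fin d → F.ι) → ℝ := fun j => ∫ x, f x * ten F.toFamily j x ∂(mu d) with hc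
  have hall : ∫ x, f x ^ 2 ∂(mu d) - ∑ j, c j ^ 2 ≤ δ' ^ 2 := by
    refine (opt (μ := mu d) hf hC he hD ho Finset.univ a).trans ?_
    apply int_sq_le
    filter_upwards [ae_openCube d] with x hx using h2 x hx
  have hdir : ∀ (t : ℕ) (i : Fin d),
      ∑ j ∈ Finset.univ.filter (fun j : Fin d → F.ι => t < F.lev (j i)), c j ^ 2 ≤ δ t ^ 2 := by
    intro t i
    obtain ⟨E, hE⟩ := dirI_bdd N hC (M * 2 ^ t) i
    have hgm : Measurable (fun x => f x - dirI N (M * 2 ^ t) i f x) :=
      hf.sub (measurable_dirI N (M * 2 ^ t) i hf)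
    have hgb : ∀ x, |f x - dirI N (M * 2 ^ t) i f x| ≤ C + E := fun x =>
      (abs_sub _ _).trans (add_le_add (hC x) (hE x))
    have hb := bessel (μ := mu d) hgm hgb he hD ho
      (Finset.univ.filter (fun j : Fin d → F.ι => t < F.lev (j i)))
    have e1 : ∀ j ∈ Finset.univ.filter (fun j : Fin d → F.ι => t < F.lev (j i)),
        c j ^ 2 = (∫ x, (f x - dirI N (M * 2 ^ t) i f x) * ten F.toFamily j x ∂(mu d)) ^ 2 := by
      intro j hj
      rw [Finset.mem_filter] at hj
      congr 1
      simp only [sub_mul]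
      rw [integral_sub (integrable_bdd_mul hf (he j) hC (hD j))
        (integrable_bdd_mul (measurable_dirI N (M * 2 ^ t) i hf) (he j) hE (hD j)),
        dirI_orth' F N hf hC i j hj.2, sub_zero]
    rw [Finset.sum_congr rfl e1]
    refine hb.trans ?_
    apply int_sq_le
    filter_upwards [ae_openCube d] with x hx
    rw [abs_sub_comm]
    exact h1 t i x hx
  have hcount : ∑ j, c j ^ 2 * (levSum F j : ℝ) ≤ d * Δ := by
    have e0 : ∀ l : F.ι, (F.lev l : ℝ) = ∑ t ∈ range L, if t < F.lev l then (1 : ℝ) else 0 := by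
      intro l
      rw [Finset.sum_boole]
      congr 1
      have : (range L).filter (fun t => t < F.lev l) = range (F.lev l) := by
        ext t
        simp only [Finset.mem_filter, Finset.mem_range]
        have := F.lev_bd l
        constructor
        · exact fun h => h.2
        · exact fun h => ⟨by omega, h⟩
      rw [this, Finset.card_range]
    have e1 : ∀ j : Fin d → F.ι, c j ^ 2 * (levSum F j : ℝ)
        = ∑ i : Fin d, ∑ t ∈ range L, if t < F.lev (j i) then c j ^ 2 else 0 := by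
      intro j
      unfold levSum
      push_cast
      rw [Finset.mul_sum]
      apply Finset.sum_congr rfl
      intro i _
      rw [e0, Finset.mul_sum]
      apply Finset.sum_congr rfl
      intro t _
      split_ifs <;> simp
    simp only [e1]
    rw [Finset.sum_comm]
    calc ∑ i : Fin d, ∑ j : Fin d → F.ι, ∑ t ∈ range L, (if t < F.lev (j i) then c j ^ 2 else 0)
        ≤ ∑ _i : Fin d, Δ := by
          apply Finset.sum_le_sum
          intro i _
          rw [Finset.sum_comm]
          refine le_trans (Finset.sum_le_sum fun t _ => ?_) hΔ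
          rw [← Finset.sum_filter]
          exact hdir t i
      _ = d * Δ := by simp
  have hhigh : ∑ j ∈ Finset.univ \ low' F d s, c j ^ 2 ≤ d * Δ / (s + 1) := by
    rw [le_div_iff₀ (by positivity), Finset.sum_mul]
    refine le_trans ?_ hcount
    calc ∑ j ∈ Finset.univ \ low' F d s, c j ^ 2 * ((s : ℝ) + 1)
        ≤ ∑ j ∈ Finset.univ \ low' F d s, c j ^ 2 * (levSum F j : ℝ) := by
          apply Finset.sum_le_sum
          intro j hj
          rw [Finset.mem_sdiff] at hj
          have : s + 1 ≤ levSum F j := by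
            by_contra hcon
            apply hj.2
            simp only [low', Finset.mem_filter, Finset.mem_univ, true_and]
            omega
          have h3 : (s : ℝ) + 1 ≤ (levSum F j : ℝ) := by exact_mod_cast this
          gcongr
      _ ≤ _ := by
          apply Finset.sum_le_sum_of_subset_of_nonneg (Finset.subset_univ _)
          intro j _ _; positivity
  have hsplit := Finset.sum_sdiff (f := fun j => c j ^ 2) (Finset.subset_univ (low' F d s))
  have : ∫ x, f x ^ 2 ∂(mu d) - ∑ j ∈ low' F d s, c j ^ 2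
      = (∫ x, f x ^ 2 ∂(mu d) - ∑ j, c j ^ 2) + ∑ j ∈ Finset.univ \ low' F d s, c j ^ 2 := by
    rw [← hsplit]; ring
  rw [this]
  exact add_le_add hall hhigh

end Tensor

end Pool.Agent.KS6_18.RI
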