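import Pool.Agent.KS6_18.RI.Lev
import Pool.Agent.KS6_18.RI.Ten
import Pool.Graph.R_seed8.Helper579.SmParams

/-!
The multilevel algorithm and its error: a bound with a constant independent of the dimension.
-/

set_option autoImplicit false
set_option linter.unusedSectionVars false

namespace Pool.Agent.KS6_18.RI

open MeasureTheory Set Finset Polynomial Pool.Agent.Helper579.Smooth
open scoped ENNReal

lemma level_err {k M : ℕ} (hk : 1 ≤ k) (hM : 1 ≤ M) {w : ℝ} (hw : 0 ≤ w) (L : ℕ) :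
    ∑ t ∈ range L, (w / ((M * 2 ^ t : ℕ) : ℝ) ^ k) ^ 2 ≤ 4 / 3 * (w / (M : ℝ) ^ k) ^ 2 := by
  have hMr : (0 : ℝ) < M := by exact_mod_cast hM
  have h1 : ∀ t, (w / ((M * 2 ^ t : ℕ) : ℝ) ^ k) ^ 2 ≤ (1 / 4 : ℝ) ^ t * (w / (M : ℝ) ^ k) ^ 2 := by
    intro t
    have h2 : w / ((M * 2 ^ t : ℕ) : ℝ) ^ k ≤ (1 / 2 : ℝ) ^ t * (w / (M : ℝ) ^ k) := by
      push_cast
      rw [mul_pow, div_le_iff₀ (by positivity)]
      have h3 : (2 : ℝ) ^ t ≤ ((2 : ℝ) ^ t) ^ k := by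
        calc (2 : ℝ) ^ t = ((2 : ℝ) ^ t) ^ 1 := (pow_one _).symm
          _ ≤ ((2 : ℝ) ^ t) ^ k := pow_le_pow_right₀ (one_le_pow₀ (by norm_num)) hk
      have h4 : (1 : ℝ) ≤ (1 / 2 : ℝ) ^ t * ((2 : ℝ) ^ t) ^ k := by
        calc (1 : ℝ) = (1 / 2 : ℝ) ^ t * (2 : ℝ) ^ t := by rw [← mul_pow]; norm_num
          _ ≤ _ := by gcongr
      calc w = w * 1 := (mul_one w).symm
        _ ≤ w * ((1 / 2 : ℝ) ^ t * ((2 : ℝ) ^ t) ^ k) := by gcongr
        _ = (1 / 2 : ℝ) ^ t * (w / (M : ℝ) ^ k) * ((M : ℝ) ^ k * ((2 : ℝ) ^ t) ^ k) := by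
            field_simp
    calc (w / ((M * 2 ^ t : ℕ) : ℝ) ^ k) ^ 2 ≤ ((1 / 2 : ℝ) ^ t * (w / (M : ℝ) ^ k)) ^ 2 := by
          gcongr
      _ = (1 / 4 : ℝ) ^ t * (w / (M : ℝ) ^ k) ^ 2 := by
          rw [mul_pow, ← pow_mul, mul_comm t 2, pow_mul]; norm_num
  calc _ ≤ ∑ t ∈ range L, (1 / 4 : ℝ) ^ t * (w / (M : ℝ) ^ k) ^ 2 := Finset.sum_le_sum fun t _ => h1 t
    _ = (∑ t ∈ range L, (1 / 4 : ℝ) ^ t) * (w / (M : ℝ) ^ k) ^ 2 := by rw [Finset.sum_mul]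
    _ ≤ 4 / 3 * (w / (M : ℝ) ^ k) ^ 2 := by
        apply mul_le_mul_of_nonneg_right _ (by positivity)
        rw [geom_sum_eq (by norm_num)]
        have : (0 : ℝ) ≤ (1 / 4) ^ L := by positivity
        rw [div_le_iff_of_neg (by norm_num)]
        linarith

theorem eRan_le' {k d M L : ℕ} {cP : ℝ} (N : Nodes k) (F : LevFam k M L cP) (hcP0 : 0 ≤ cP)
    (hk : 1 ≤ k) (hM : 1 ≤ M) (hdB : d ≤ 2 ^ L) (s : ℕ) {n₁ n₂ : ℕ} (hn₁ : 1 ≤ n₁)
    (hn₂ : 1 ≤ n₂) {n : ℕ} (hn : (M * k) ^ d + n₁ + n₂ ≤ n) {a : ℝ} (ha : 0 < a)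
    (ha2 : (1 / (n₂ : ℝ)) * (((1 / (M : ℝ) ^ k) ^ 2
      + d * (4 / 3 * ((1 + N.Lam) / (M : ℝ) ^ k) ^ 2) / (s + 1))
      + ((4 : ℝ) ^ s * (2 * (M * cP)) ^ d) *
        ((1 + N.Lam) / (M : ℝ) ^ k * (1 + N.Lam) ^ d) ^ 2 / n₁) ≤ a ^ 2) :
    eRan k d n ≤ ENNReal.ofReal a := by
  classical
  have hB : 1 ≤ 2 ^ L := Nat.one_le_two_pow
  have hL0 : 0 ≤ 1 + N.Lam := by have := N.one_le; linarith
  set Fm := F.toFamily with hFm
  have hA := fun ω : (Fin n₁ → Fin d → ℝ) × (Fin n₂ → Fin d → ℝ) =>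
    alg_of_local' (pts N M ω) (Hfun N Fm (low' F d s) ω) (Hfun_local N Fm (low' F d s) ω)
  choose Alg' hAlg using hA
  have hcard : Fintype.card ((Fin d → Fin M × Fin k) ⊕ (Fin n₁ ⊕ Fin n₂))
      = (M * k) ^ d + n₁ + n₂ := by
    simp [Nat.add_assoc]
  have hmemE : (⨆ f ∈ Fclass k d, upperInt ((Measure.pi fun _ : Fin n₁ => mu d).prod
      (Measure.pi fun _ : Fin n₂ => mu d)) (fun ω => ENNReal.ofReal
        |(∫ x in Set.Icc 0 1, f x) - (Alg' ω).run f|)) ∈ ranErrors k d n := by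
    refine ⟨(Fin n₁ → Fin d → ℝ) × (Fin n₂ → Fin d → ℝ), inferInstance,
      (Measure.pi fun _ => mu d).prod (Measure.pi fun _ => mu d), inferInstance, Alg', ?_, ?_, rfl⟩
    · intro f _
      simp only [(hAlg _ f).2]
      exact measurable_const
    · intro f _
      simp only [(hAlg _ f).2, hcard]
      rw [lintegral_const, measure_univ, mul_one]
      exact_mod_cast hn
  refine (sInf_le hmemE).trans ?_
  · apply iSup₂_le
    intro f hf
    have hft := comp_clampd_mem hf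
    have hcont := continuous_comp_clampd hf
    set g : (Fin d → ℝ) → ℝ := fun x => f (clampd x) with hg
    have hgb : ∀ x, |g x| ≤ 1 := fun x => bound_closed hf (clampd_mem x)
    obtain ⟨D', hD'⟩ := listI_bdd hgb N M (List.finRange d)
    obtain ⟨D, hD⟩ := ten_bdd Fm d
    obtain ⟨c, hc⟩ := exists_fine Fm hM hB hdB hft
    have happ := approx_low' F N hcont.measurable hgb
      (δ := fun t => (1 + N.Lam) / ((M * 2 ^ t : ℕ) : ℝ) ^ k)
      (fun t i x hx => dirI_error N hft (Nat.mul_pos hM (by positivity)) i hx)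
      (level_err hk hM hL0 L) hc s
    have hTe : ∀ᵐ x ∂(mu d), |g x - listI N M (List.finRange d) g x|
        ≤ (1 + N.Lam) / (M : ℝ) ^ k * (1 + N.Lam) ^ d := by
      filter_upwards [ae_openCube d] with x hx
      rw [abs_sub_comm]
      have := listI_error N hft hM (List.finRange d) x hx
      rwa [List.length_finRange] at this
    have key := two_stage (μ := mu d) hcont.measurable
      (measurable_listI N M (List.finRange d) hcont.measurable) hgb hD'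
      (measurable_ten Fm) hD (ten_orth Fm) (low' F d s) (kernel_bound' F hcP0 s) hTe happ
      hn₁ hn₂ ha ha2
    have hmeas := (measurable_outv (μ := mu d) hcont.measurable
      (measurable_listI N M (List.finRange d) hcont.measurable) (measurable_ten Fm)
      (low' F d s) (n₁ := n₁) (n₂ := n₂)).const_sub (∫ x, g x ∂(mu d))
    unfold upperInt
    refine (iInf₂_le (fun ω => ENNReal.ofReal |∫ x, g x ∂(mu d) - outv (mu d) g
      (listI N M (List.finRange d) g) (ten Fm) (low' F d s) ω|) hmeas.abs.ennreal_ofReal).trans ?_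
    refine (iInf_le _ ?_).trans key
    intro ω
    beta_reduce
    rw [(hAlg ω f).1, Pool.Agent.Helper579.Smooth.integral_eq f]
    exact le_rfl

theorem upper_unif {k : ℕ} (hk : 1 ≤ k) : ∃ C : ℝ, 0 < C ∧ ∀ d n : ℕ, 1 ≤ d → 1 ≤ n →
    eRan k d n ≤ ENNReal.ofReal (C * (n : ℝ) ^ (-((k : ℝ) / d) - 1 / 2)) := by
  classical
  obtain ⟨K, p, hdeg, hp, hspan⟩ := exists_orthopoly k
  obtain ⟨N⟩ := exists_nodes k
  obtain ⟨cP, hcP0, hcP⟩ : ∃ cP : ℝ, 0 ≤ cP ∧ ∀ y ∈ Set.Icc (0 : ℝ) 1, ∑ a, (p a).eval y ^ 2 ≤ cP := by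
    have hcont : Continuous (fun y : ℝ => ∑ a, (p a).eval y ^ 2) :=
      continuous_finsetSum _ fun a _ => (p a).continuous.pow 2
    obtain ⟨C, hC⟩ := (isCompact_Icc (a := (0 : ℝ)) (b := 1)).exists_bound_of_continuousOn
      hcont.continuousOn
    exact ⟨max C 0, le_max_right _ _, fun y hy =>
      ((le_abs_self _).trans (hC y hy)).trans (le_max_left _ _)⟩
  have hL1 := N.one_le
  obtain ⟨C₅, hC₅⟩ := exists_nat_ge (4 * (2 * cP) * (1 + N.Lam) ^ 2 + 1)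
  have hC₅1 : 1 ≤ C₅ := by
    have : (1 : ℝ) ≤ C₅ := by
      refine le_trans ?_ hC₅
      have : 0 ≤ 4 * (2 * cP) * (1 + N.Lam) ^ 2 := by positivity
      linarith
    exact_mod_cast this
  set C₆ := k + C₅ with hC₆
  have hC₆1 : 1 ≤ C₆ := by omega
  have hC₆r : (0 : ℝ) < C₆ := by exact_mod_cast hC₆1
  refine ⟨Real.sqrt 8 * (1 + N.Lam) * (4 * C₆) ^ k, by positivity, fun d n hd hn => ?_⟩
  have hdr : (1 : ℝ) ≤ d := by exact_mod_cast hd
  have hd0 : (0 : ℝ) < d := by linarith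
  have hnr : (0 : ℝ) < n := by exact_mod_cast hn
  have hsplit : (n : ℝ) ^ (-((k : ℝ) / d) - 1 / 2) = ((n : ℝ) ^ ((k : ℝ) / d))⁻¹ * (Real.sqrt n)⁻¹ := by
    rw [sub_eq_add_neg, Real.rpow_add hnr, Real.rpow_neg hnr.le, Real.rpow_neg hnr.le,
      Real.sqrt_eq_rpow]
  rcases Nat.lt_or_ge n (2 * C₆ ^ d) with hsmall | hlarge
  · refine (eRan_mc hn).trans (ENNReal.ofReal_le_ofReal ?_)
    have h1 : n ≤ (4 * C₆) ^ d := by
      calc n ≤ 2 * C₆ ^ d := hsmall.le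
        _ ≤ 4 ^ d * C₆ ^ d := by
            gcongr
            calc 2 ≤ 4 ^ 1 := by norm_num
              _ ≤ 4 ^ d := Nat.pow_le_pow_right (by norm_num) hd
        _ = (4 * C₆) ^ d := (mul_pow _ _ _).symm
    have h2 := rpow_root (k := k) hd h1
    push_cast at h2
    rw [hsplit]
    have h3 : 1 ≤ Real.sqrt 8 * (1 + N.Lam) := by
      have : (1 : ℝ) ≤ Real.sqrt 8 := Real.one_le_sqrt.mpr (by norm_num)
      nlinarith
    have hpos : 0 < (n : ℝ) ^ ((k : ℝ) / d) := by positivity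
    calc 1 / Real.sqrt n = 1 * 1 * ((Real.sqrt n)⁻¹) := by ring
      _ ≤ (Real.sqrt 8 * (1 + N.Lam)) * ((4 * C₆) ^ k * ((n : ℝ) ^ ((k : ℝ) / d))⁻¹) *
          (Real.sqrt n)⁻¹ := by
          gcongr
          rw [← div_eq_mul_inv, le_div_iff₀ hpos, one_mul]
          exact h2
      _ = _ := by ring
  · obtain ⟨M, hM1, hMn, hMlt⟩ := exists_scale hC₆1 hd hlarge
    have hMr : (0 : ℝ) < M := by exact_mod_cast hM1
    set n₁ := (C₅ * M) ^ d with hn₁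
    have hn₁1 : 1 ≤ n₁ := Nat.one_le_pow _ _ (Nat.mul_pos hC₅1 hM1)
    have hcost : (M * k) ^ d + n₁ ≤ (C₆ * M) ^ d := by
      rw [hn₁]
      calc (M * k) ^ d + (C₅ * M) ^ d ≤ (M * k + C₅ * M) ^ d := pow_add_pow_le' _ _ hd
        _ = (C₆ * M) ^ d := by congr 1; rw [hC₆]; ring
    set n₂ := n - (M * k) ^ d - n₁ with hn₂
    have hn₂' : (M * k) ^ d + n₁ + n₂ = n := by omega
    have hn₂n : n ≤ 2 * n₂ := by omega
    have hn₂1 : 1 ≤ n₂ := by omega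
    have hn₂r : (0 : ℝ) < n₂ := by exact_mod_cast hn₂1
    obtain ⟨F⟩ := exists_levFam (k := k) hdeg hp hspan hcP0 hcP hM1 d
    set a : ℝ := Real.sqrt (4 / n₂) * ((1 + N.Lam) / (M : ℝ) ^ k) with ha
    have ha0 : 0 < a := by positivity
    have hasq : a ^ 2 = (1 / (n₂ : ℝ)) * (4 * ((1 + N.Lam) / (M : ℝ) ^ k) ^ 2) := by
      rw [ha, mul_pow, Real.sq_sqrt (by positivity)]
      ring
    have hbound := eRan_le' (k := k) (d := d) N F hcP0 hk hM1 (Nat.lt_two_pow_self).le d hn₁1 hn₂1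
      hn₂'.le ha0 (by
      rw [hasq]
      gcongr
      set v := (1 + N.Lam) / (M : ℝ) ^ k with hv
      have hv0 : 0 ≤ v := by positivity
      have hA : (1 / (M : ℝ) ^ k) ^ 2 ≤ v ^ 2 := by
        have h1 : 1 / (M : ℝ) ^ k ≤ v := by
          rw [hv]; gcongr; linarith
        gcongr
      have hB : (d : ℝ) * (4 / 3 * v ^ 2) / (d + 1) ≤ 4 / 3 * v ^ 2 := by
        rw [div_le_iff₀ (by positivity)]
        nlinarith [sq_nonneg v]
      have hC : (4 : ℝ) ^ d * (2 * (M * cP)) ^ d * (v * (1 + N.Lam) ^ d) ^ 2 / (n₁ : ℝ)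
          ≤ v ^ 2 := by
        rw [div_le_iff₀ (by positivity)]
        have h2 : (4 * (2 * cP) * (1 + N.Lam) ^ 2) ^ d ≤ (C₅ : ℝ) ^ d := by
          gcongr
          linarith
        calc (4 : ℝ) ^ d * (2 * (M * cP)) ^ d * (v * (1 + N.Lam) ^ d) ^ 2
            = v ^ 2 * ((4 * (2 * cP) * (1 + N.Lam) ^ 2) ^ d * (M : ℝ) ^ d) := by
              generalize 1 + N.Lam = w
              simp only [mul_pow]
              ring
          _ ≤ v ^ 2 * ((C₅ : ℝ) ^ d * (M : ℝ) ^ d) := by gcongr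
          _ = v ^ 2 * (n₁ : ℝ) := by
              rw [hn₁]; push_cast; rw [mul_pow]
      nlinarith [sq_nonneg v])
    refine hbound.trans (ENNReal.ofReal_le_ofReal ?_)
    have h2 := rpow_root (k := k) hd hMlt.le
    push_cast at h2
    rw [hsplit]
    have hpos : 0 < (n : ℝ) ^ ((k : ℝ) / d) := by positivity
    have h3 : 1 / (M : ℝ) ^ k ≤ (4 * C₆) ^ k * ((n : ℝ) ^ ((k : ℝ) / d))⁻¹ := by
      rw [← div_eq_mul_inv, div_le_div_iff₀ (by positivity) hpos, one_mul, ← mul_pow]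
      exact h2
    have h4 : Real.sqrt (4 / n₂) ≤ Real.sqrt 8 * (Real.sqrt n)⁻¹ := by
      rw [← div_eq_mul_inv, ← Real.sqrt_div (by norm_num)]
      apply Real.sqrt_le_sqrt
      rw [div_le_div_iff₀ hn₂r hnr]
      have : (n : ℝ) ≤ 2 * n₂ := by exact_mod_cast hn₂n
      linarith
    calc a = Real.sqrt (4 / n₂) * ((1 + N.Lam) * (1 / (M : ℝ) ^ k)) := by
          rw [ha]; ring
      _ ≤ (Real.sqrt 8 * (Real.sqrt n)⁻¹) * ((1 + N.Lam) *
          ((4 * C₆) ^ k * ((n : ℝ) ^ ((k : ℝ) / d))⁻¹)) := by gcongr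
      _ = _ := by ring

end Pool.Agent.KS6_18.RI
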